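import Mathlib

/-! RL NV: powers of conjugates with different exponents are different. -/

set_option autoImplicit false

open Polynomial

namespace Pool.Agent.Y849.RL

theorem exists_next {K : Type} [Field K] [NumberField K] {α : K} {a b : ℕ} {σ τ : K →ₐ[ℚ] ℂ}
    (h : (σ α) ^ a = (τ α) ^ b) (ρ : K →ₐ[ℚ] ℂ) :
    ∃ ρ' : K →ₐ[ℚ] ℂ, (ρ α) ^ a = (ρ' α) ^ b := by
  have hz : σ α ∈ IntermediateField.adjoin ℚ ({σ α, τ α} : Set ℂ) :=
    IntermediateField.subset_adjoin _ _ (by simp)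
  have hw : τ α ∈ IntermediateField.adjoin ℚ ({σ α, τ α} : Set ℂ) :=
    IntermediateField.subset_adjoin _ _ (by simp)
  have hint : ∀ ψ : K →ₐ[ℚ] ℂ, IsIntegral ℚ (ψ α) := fun ψ =>
    (Algebra.IsIntegral.isIntegral (R := ℚ) α).map ψ
  have hmin : ∀ ψ : K →ₐ[ℚ] ℂ, minpoly ℚ (ψ α) = minpoly ℚ α := fun ψ =>
    minpoly.algHom_eq ψ ψ.toRingHom.injective α
  have hy : aeval (ρ α) (minpoly ℚ (σ α)) = 0 := by
    rw [hmin, aeval_algHom_apply, minpoly.aeval, map_zero]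
  obtain ⟨φ, hφ⟩ := IntermediateField.exists_algHom_adjoin_of_splits_of_aeval
    (F := ℚ) (E := ℂ) (K := ℂ) (S := ({σ α, τ α} : Set ℂ)) (fun s hs => by
      refine ⟨?_, IsAlgClosed.splits _⟩
      rcases hs with rfl | hs
      · exact hint σ
      · rw [Set.mem_singleton_iff] at hs
        rw [hs]
        exact hint τ) hz hy
  have hroot : aeval (φ ⟨τ α, hw⟩) (minpoly ℚ α) = 0 := by
    have h1 : aeval (⟨τ α, hw⟩ : IntermediateField.adjoin ℚ ({σ α, τ α} : Set ℂ))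
        (minpoly ℚ α) = 0 := by
      apply (algebraMap (IntermediateField.adjoin ℚ ({σ α, τ α} : Set ℂ)) ℂ).injective
      rw [map_zero, ← aeval_algebraMap_apply]
      show aeval (τ α) (minpoly ℚ α) = 0
      rw [aeval_algHom_apply, minpoly.aeval, map_zero]
    rw [aeval_algHom_apply, h1, map_zero]
  have hmem : φ ⟨τ α, hw⟩ ∈ Set.range fun ψ : K →ₐ[ℚ] ℂ => ψ α := by
    rw [Algebra.IsAlgebraic.range_eval_eq_rootSet_minpoly ℂ α, mem_rootSet]
    exact ⟨minpoly.ne_zero (Algebra.IsIntegral.isIntegral (R := ℚ) α), hroot⟩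
  obtain ⟨ρ', hρ'⟩ := hmem
  refine ⟨ρ', ?_⟩
  have hρ'' : ρ' α = φ ⟨τ α, hw⟩ := hρ'
  rw [hρ'', ← hφ, ← map_pow, ← map_pow]
  congr 1
  exact Subtype.ext h

theorem nv0 {K : Type} [Field K] [NumberField K] (α : K) (h0 : α ≠ 0)
    (hroot : ∀ n : ℕ, 0 < n → α ^ n ≠ 1) (a b : ℕ) (hab : a ≠ b)
    (σ τ : K →ₐ[ℚ] ℂ) : (σ α) ^ a ≠ (τ α) ^ b := by
  intro h
  choose nx hnx using exists_next h
  have hit : ∀ (k : ℕ) (ρ : K →ₐ[ℚ] ℂ), (ρ α) ^ (a ^ k) = ((nx^[k] ρ) α) ^ (b ^ k) := by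
    intro k
    induction k with
    | zero => intro ρ; simp
    | succ k ih =>
      intro ρ
      rw [pow_succ, pow_mul, ih, ← pow_mul, mul_comm, pow_mul, hnx,
        Function.iterate_succ_apply', ← pow_mul, ← pow_succ']
  have : Finite (K →ₐ[ℚ] ℂ) := inferInstance
  obtain ⟨i, j, hij, hE⟩ := Finite.exists_ne_map_eq_of_infinite (fun k : ℕ => nx^[k] σ)
  have key : ∀ i j : ℕ, i < j → nx^[i] σ = nx^[j] σ → False := by
    intro i j hij hE
    obtain ⟨k, rfl⟩ : ∃ k, j = k + i := ⟨j - i, by omega⟩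
    have hk : k ≠ 0 := by omega
    set ρ := nx^[i] σ with hρ
    have h1 : nx^[k] ρ = ρ := by
      rw [hρ, ← Function.iterate_add_apply]
      exact hE.symm
    have h2 := hit k ρ
    rw [h1, ← map_pow, ← map_pow] at h2
    have h3 : α ^ (a ^ k) = α ^ (b ^ k) := ρ.toRingHom.injective h2
    have hne : a ^ k ≠ b ^ k := fun h => hab (Nat.pow_left_injective hk h)
    have key2 : ∀ x y : ℕ, x < y → α ^ x = α ^ y → False := by
      intro x y hxy h4
      obtain ⟨d, rfl⟩ : ∃ d, y = x + d := ⟨y - x, by omega⟩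
      have hd : 0 < d := by omega
      apply hroot d hd
      rw [pow_add] at h4
      have h5 : α ^ x ≠ 0 := pow_ne_zero x h0
      exact (mul_eq_left₀ h5).1 h4.symm
    rcases lt_or_gt_of_ne hne with h4 | h4
    · exact key2 _ _ h4 h3
    · exact key2 _ _ h4 h3.symm
  rcases lt_or_gt_of_ne hij with h1 | h1
  · exact key i j h1 hE
  · exact key j i h1 hE.symm

end Pool.Agent.Y849.RL
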