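import Pool.Agent.Y947.RL.Stm
import Pool.Agent.Y849.RL.Nv0

/-! RL NV -/

set_option autoImplicit false

namespace Pool.Agent.Y849.RL

theorem nv : Pool.Agent.Y947.RL.S_NV := fun _ _ _ α h0 hroot a b _ _ hab σ τ =>
  nv0 α h0 hroot a b hab σ τ

end Pool.Agent.Y849.RL
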